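import Pool.Agent.Helper45.DO.Four

/-!
# ST_C3: the recursion `κ_N`, bounds and the block identity
-/

namespace Pool.Agent.Helper67.DO

open scoped BigOperators Real
open MeasureTheory

noncomputable section

theorem c3_gam_pos {s0 : ℝ} (h : 0 < s0) (N : ℕ) : 0 < gamC s0 N := by unfold gamC; positivity

theorem c3_eps_pos {s0 : ℝ} (h : 0 < s0) (N : ℕ) : 0 < epsC s0 N := by
  unfold epsC
  have := c3_gam_pos h N
  positivity

theorem c3_d_pos (ns N : ℕ) : (0 : ℝ) < (dC ns N : ℝ) := by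
  unfold dC
  positivity

theorem c3_del_pos {s0 : ℝ} (h : 0 < s0) (ns N : ℕ) : 0 < delC s0 ns N := by
  unfold delC
  exact div_pos (c3_eps_pos h N) (c3_d_pos ns N)

theorem c3_sC_pos {s0 : ℝ} (h : 0 < s0) (N : ℕ) : 0 < sC s0 N := by unfold sC; positivity

theorem c3_sC_zero (s0 : ℝ) : sC s0 0 = s0 := by unfold sC; ring

theorem c3_sC_succ (s0 : ℝ) (N : ℕ) : sC s0 (N + 1) = sC s0 N - gamC s0 N := by
  unfold sC gamC
  rw [pow_succ, pow_succ]
  field_simp
  ring

/-- a bounded family of coefficients -/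
theorem c3_cf_le {s0 : ℝ} (hs0 : 0 < s0) (ns N : ℕ) (j : ℤ) {f : ℂ → ℂ} (hf : HB (sC s0 N) f) {F : ℝ}
    (hF : ∀ z ∈ St (sC s0 N), ‖f z‖ ≤ F) : ‖cfC s0 ns N j f‖ ≤ 2 / delC s0 ns N * F := by
  have hs := c3_sC_pos hs0 N
  have hδ := c3_del_pos hs0 ns N
  have hF0 : 0 ≤ F := (norm_nonneg _).trans (hF 0 (by simpa [St] using hs))
  set E : ℝ := Real.exp (2 * π * sC s0 N * |(j : ℝ)|) with hE
  have hE0 : 0 < E := Real.exp_pos _
  have hinv : Real.exp (-(2 * π * sC s0 N * |(j : ℝ)|)) = E⁻¹ := by rw [hE, Real.exp_neg]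
  have hle : ∀ l : ℤ, |(l : ℝ)| = |(j : ℝ)| → ‖fcC f l‖ ≤ F * E⁻¹ := by
    intro l hl
    have := c3_fc_le hf.hol hf.per hs hF l
    rwa [hl, hinv] at this
  have hco : ‖(if j = 0 then fcC f 0 else if 0 < j then fcC f j + fcC f (-j)
      else Complex.I * (fcC f j - fcC f (-j)))‖ ≤ 2 * (F * E⁻¹) := by
    have hpos : 0 ≤ F * E⁻¹ := by positivity
    split_ifs with h1 h2
    · subst h1
      have := hle 0 rfl
      linarith
    · have a := hle j rfl
      have b := hle (-j) (by push_cast; rw [abs_neg])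
      exact (norm_add_le _ _).trans (by linarith)
    · have a := hle j rfl
      have b := hle (-j) (by push_cast; rw [abs_neg])
      rw [norm_mul, Complex.norm_I, one_mul]
      exact (norm_sub_le _ _).trans (by linarith)
  unfold cfC
  rw [← hE, norm_div, norm_mul, Complex.norm_real, Complex.norm_real, Real.norm_of_nonneg hE0.le,
    Real.norm_of_nonneg hδ.le]
  calc ‖(if j = 0 then fcC f 0 else if 0 < j then fcC f j + fcC f (-j)
        else Complex.I * (fcC f j - fcC f (-j)))‖ * E / delC s0 ns N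
      ≤ (2 * (F * E⁻¹)) * E / delC s0 ns N := by
        gcongr
    _ = 2 / delC s0 ns N * F := by
        field_simp

/-- the block functions reproduce the truncated Fourier series -/
theorem c3_block {s0 : ℝ} (hs0 : 0 < s0) (ns N : ℕ) (f : ℂ → ℂ) (z : ℂ) :
    (delC s0 ns N : ℂ) * ∑ j ∈ frC ns N, cfC s0 ns N j f * phiC s0 N j z = PlC (nC ns N) f z := by
  have hδ : (delC s0 ns N : ℂ) ≠ 0 := by exact_mod_cast (c3_del_pos hs0 ns N).ne'
  have hterm : ∀ j : ℤ, (delC s0 ns N : ℂ) * (cfC s0 ns N j f * phiC s0 N j z) =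
      (if j = 0 then fcC f 0 else if 0 < j then fcC f j + fcC f (-j)
      else Complex.I * (fcC f j - fcC f (-j))) *
      (if j = 0 then 1 else if 0 < j then Complex.cos (2 * π * j * z) else Complex.sin (2 * π * j * z)) := by
    intro j
    unfold cfC phiC
    have hE : (Real.exp (2 * π * sC s0 N * |(j : ℝ)|) : ℂ) * (Real.exp (-(2 * π * sC s0 N * |(j : ℝ)|)) : ℂ) = 1 := by
      rw [← Complex.ofReal_mul, ← Real.exp_add]
      simp
    set A := (if j = 0 then fcC f 0 else if 0 < j then fcC f j + fcC f (-j)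
      else Complex.I * (fcC f j - fcC f (-j)))
    set B := (if j = 0 then (1 : ℂ) else if 0 < j then Complex.cos (2 * π * j * z) else Complex.sin (2 * π * j * z))
    calc (delC s0 ns N : ℂ) * (A * (Real.exp (2 * π * sC s0 N * |(j : ℝ)|) : ℂ) / (delC s0 ns N : ℂ) *
          ((Real.exp (-(2 * π * sC s0 N * |(j : ℝ)|)) : ℂ) * B))
        = A * B * ((Real.exp (2 * π * sC s0 N * |(j : ℝ)|) : ℂ) *
            (Real.exp (-(2 * π * sC s0 N * |(j : ℝ)|)) : ℂ)) := by field_simp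
      _ = A * B := by rw [hE, mul_one]
  rw [Finset.mul_sum]
  unfold PlC frC
  generalize nC ns N = n
  induction n with
  | zero =>
    simp only [Nat.cast_zero, neg_zero, Finset.Icc_self, Finset.sum_singleton, hterm]
    simp
  | succ m ih =>
    rw [c3_Icc_succ, c3_Icc_succ, ih]
    congr 1
    rw [hterm, hterm]
    have h1 : ((m : ℤ) + 1) ≠ 0 := by omega
    have h2 : (0 : ℤ) < (m : ℤ) + 1 := by omega
    have h3 : (-((m : ℤ) + 1)) ≠ 0 := by omega
    have h4 : ¬ ((0 : ℤ) < -((m : ℤ) + 1)) := by omega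
    simp only [if_neg h1, if_pos h2, if_neg h3, if_neg h4, neg_neg]
    generalize (m : ℤ) + 1 = l
    have e1 : Complex.exp (2 * π * Complex.I * l * z) = Complex.cos (2 * π * l * z) + Complex.sin (2 * π * l * z) * Complex.I := by
      rw [← Complex.exp_mul_I]
      congr 1
      ring
    have e2 : Complex.exp (2 * π * Complex.I * ((-l : ℤ) : ℂ) * z) =
        Complex.cos (2 * π * l * z) - Complex.sin (2 * π * l * z) * Complex.I := by
      have : (2 * π * Complex.I * ((-l : ℤ) : ℂ) * z) = (-(2 * π * l * z)) * Complex.I := by push_cast; ring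
      rw [this, Complex.exp_mul_I, Complex.cos_neg, Complex.sin_neg]
      ring
    have e3 : Complex.sin (2 * π * ((-l : ℤ) : ℂ) * z) = - Complex.sin (2 * π * l * z) := by
      rw [← Complex.sin_neg]
      congr 1
      push_cast
      ring
    rw [e1, e2, e3]
    ring

theorem c3_deriv_per {f : ℂ → ℂ} (hf : ∀ z, f (z + 1) = f z) (z : ℂ) : deriv f (z + 1) = deriv f z := by
  have h1 : (fun z => f (z + 1)) = f := funext hf
  rw [← deriv_comp_add_const f 1 z, h1]

theorem c3_phi_per (s0 : ℝ) (N : ℕ) (j : ℤ) (z : ℂ) : phiC s0 N j (z + 1) = phiC s0 N j z := by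
  unfold phiC
  have h1 : Complex.cos (2 * π * j * (z + 1)) = Complex.cos (2 * π * j * z) := by
    rw [← Complex.cos_add_int_mul_two_pi (2 * π * j * z) j]
    congr 1
    ring
  have h2 : Complex.sin (2 * π * j * (z + 1)) = Complex.sin (2 * π * j * z) := by
    rw [← Complex.sin_add_int_mul_two_pi (2 * π * j * z) j]
    congr 1
    ring
  rw [h1, h2]

theorem c3_phi_diff (s0 : ℝ) (N : ℕ) (j : ℤ) : Differentiable ℂ (phiC s0 N j) := by
  unfold phiC
  refine Differentiable.const_mul ?_ _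
  split_ifs
  · exact differentiable_const _
  · exact Complex.differentiable_cos.comp (by fun_prop)
  · exact Complex.differentiable_sin.comp (by fun_prop)

theorem c3_deriv_diff {f : ℂ → ℂ} (hf : Differentiable ℂ f) : Differentiable ℂ (deriv f) := by
  have := (hf.differentiableOn (s := Set.univ)).deriv isOpen_univ
  exact differentiableOn_univ.1 this

theorem c3_Pl_diff (n : ℕ) (h : ℂ → ℂ) : Differentiable ℂ (PlC n h) := by
  unfold PlC
  fun_prop

theorem c3_Pl_per (n : ℕ) (h : ℂ → ℂ) (z : ℂ) : PlC n h (z + 1) = PlC n h z := by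
  unfold PlC
  refine Finset.sum_congr rfl fun l _ => ?_
  congr 1
  rw [Complex.exp_eq_exp_iff_exists_int]
  exact ⟨l, by ring⟩

/-- the function `h_N` -/
theorem c3_h {s0 : ℝ} (hs0 : 0 < s0) (hs1 : s0 ≤ 1) {ns : ℕ} (hns : 1 ≤ ns) (N : ℕ) (c2 : ST_C2) {th : ℕ × ℤ → ℝ}
    (hth : th ∈ Cu) {k : ℂ → ℂ} {K : ℝ} (hk : HB (sC s0 N) k) (hK : ∀ z ∈ St (sC s0 N), ‖k z‖ ≤ K) :
    HB (sC s0 N) (hC s0 ns N th k) ∧
      ∀ z ∈ St (sC s0 N), ‖hC s0 ns N th k z‖ ≤ (1 + 2 * π * nC ns N * epsC s0 N) * K := by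
  obtain ⟨a1, a2, a3, a4, a5, a6, a7, a8, a9⟩ := c2 s0 ns N hs0 hs1 hns th hth
  have hs := c3_sC_pos hs0 N
  have hK0 : 0 ≤ K := (norm_nonneg _).trans (hK 0 (by simpa [St] using hs))
  have hb : ∀ z ∈ St (sC s0 N), ‖hC s0 ns N th k z‖ ≤ (1 + 2 * π * nC ns N * epsC s0 N) * K := by
    intro z hz
    unfold hC
    rw [norm_mul]
    have h1 : ‖1 + deriv (bC s0 ns N th) z‖ ≤ 1 + 2 * π * nC ns N * epsC s0 N := by
      refine (norm_add_le _ _).trans ?_
      rw [norm_one]
      exact add_le_add le_rfl (a4 z hz).2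
    exact mul_le_mul h1 (hK z hz) (norm_nonneg _) ((norm_nonneg _).trans h1)
  refine ⟨⟨?_, ?_, ⟨_, hb⟩⟩, hb⟩
  · unfold hC
    exact ((differentiableOn_const _).add (c3_deriv_diff a1).differentiableOn).mul hk.hol
  · intro z hz
    unfold hC
    rw [hk.per z hz, c3_deriv_per a2]

/-- the step `κ_N → κ_{N+1}` -/
theorem c3_step {s0 : ℝ} (hs0 : 0 < s0) (hs1 : s0 ≤ 1) {ns : ℕ} (hns : 1 ≤ ns) (N : ℕ) (c2 : ST_C2) {th : ℕ × ℤ → ℝ}
    (hth : th ∈ Cu) {k : ℂ → ℂ} {K : ℝ} (hk : HB (sC s0 N) k) (hK : ∀ z ∈ St (sC s0 N), ‖k z‖ ≤ K) :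
    HB (sC s0 (N + 1)) (fun w => hC s0 ns N th k (CinvC s0 ns N th w)
      - PlC (nC ns N) (hC s0 ns N th k) (CinvC s0 ns N th w)) ∧
      ∀ w ∈ St (sC s0 (N + 1)), ‖hC s0 ns N th k (CinvC s0 ns N th w)
      - PlC (nC ns N) (hC s0 ns N th k) (CinvC s0 ns N th w)‖ ≤ qC s0 ns N * K := by
  obtain ⟨a1, a2, a3, a4, a5, a6, a7, a8, a9⟩ := c2 s0 ns N hs0 hs1 hns th hth
  obtain ⟨hh, hb⟩ := c3_h hs0 hs1 hns N c2 hth hk hK
  have hs := c3_sC_pos hs0 N
  have hg := c3_gam_pos hs0 N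
  have hbd : ∀ w ∈ St (sC s0 (N + 1)), ‖hC s0 ns N th k (CinvC s0 ns N th w)
      - PlC (nC ns N) (hC s0 ns N th k) (CinvC s0 ns N th w)‖ ≤ qC s0 ns N * K := by
    intro w hw
    have h1 := c3_tail hh.hol hh.per hs hb hg (nC ns N) (a7 w hw).1
    refine h1.trans (le_of_eq ?_)
    unfold qC
    ring
  have hmem : ∀ w ∈ St (sC s0 (N + 1)), CinvC s0 ns N th w ∈ St (sC s0 N) := fun w hw =>
    c3_St_mono (by linarith) (a7 w hw).1
  refine ⟨⟨?_, ?_, ⟨_, hbd⟩⟩, hbd⟩
  · refine DifferentiableOn.sub ?_ ?_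
    · exact hh.hol.comp a8 hmem
    · exact (c3_Pl_diff _ _).comp_differentiableOn a8
  · intro w hw
    rw [(a7 w hw).2.2.2, hh.per _ (hmem w hw), c3_Pl_per]

theorem st_C3 (c2 : ST_C2) : ST_C3 := by
  intro s0 ns hs0 hs1 hns th hth κ K hκ hK N
  have main : ∀ N : ℕ, HB (sC s0 N) (kapN s0 ns th κ N) ∧
      (∀ z ∈ St (sC s0 N), ‖kapN s0 ns th κ N z‖ ≤ KC s0 ns N * K) := by
    intro N
    induction N with
    | zero =>
      rw [c3_sC_zero]
      have e : kapN s0 ns th κ 0 = κ := by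
        funext z
        simp only [kapN]
      rw [e]
      refine ⟨hκ, fun z hz => ?_⟩
      simpa [KC] using hK z hz
    | succ N ih =>
      obtain ⟨i1, i2⟩ := ih
      obtain ⟨j1, j2⟩ := c3_step hs0 hs1 hns N c2 hth i1 i2
      have e : kapN s0 ns th κ (N + 1) = fun w => hC s0 ns N th (kapN s0 ns th κ N) (CinvC s0 ns N th w)
          - PlC (nC ns N) (hC s0 ns N th (kapN s0 ns th κ N)) (CinvC s0 ns N th w) := by
        funext z
        simp only [kapN]
      rw [e]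
      refine ⟨j1, fun z hz => (j2 z hz).trans (le_of_eq ?_)⟩
      unfold KC
      rw [Finset.prod_range_succ]
      ring
  obtain ⟨m1, m2⟩ := main N
  refine ⟨m1, m2, ?_, ?_⟩
  · intro j hj
    obtain ⟨hh, hb⟩ := c3_h hs0 hs1 hns N c2 hth m1 m2
    have hδ := c3_del_pos hs0 ns N
    constructor
    · unfold BC
      refine (c3_cf_le hs0 ns N j hh hb).trans (le_of_eq ?_)
      ring
    · obtain ⟨a1, a2, a3, a4, a5, a6, a7, a8, a9⟩ := c2 s0 ns N hs0 hs1 hns th hth
      have hK0 : 0 ≤ KC s0 ns N * K :=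
        (norm_nonneg _).trans (m2 0 (by simpa [St] using c3_sC_pos hs0 N))
      have hb2 : ∀ z ∈ St (sC s0 N), ‖(delC s0 ns N : ℂ) * deriv (phiC s0 N j) z * kapN s0 ns th κ N z‖ ≤
          delC s0 ns N * (2 * π * nC ns N) * (KC s0 ns N * K) := by
        intro z hz
        rw [norm_mul, norm_mul, Complex.norm_real, Real.norm_of_nonneg hδ.le]
        have := (a5 j hj z hz).2
        exact mul_le_mul (mul_le_mul_of_nonneg_left this hδ.le) (m2 z hz) (norm_nonneg _) (by positivity)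
      have hf : HB (sC s0 N) (fun z => (delC s0 ns N : ℂ) * deriv (phiC s0 N j) z * kapN s0 ns th κ N z) := by
        refine ⟨?_, ?_, ⟨_, hb2⟩⟩
        · exact ((c3_deriv_diff (c3_phi_diff s0 N j)).differentiableOn.const_mul _).mul m1.hol
        · intro z hz
          rw [m1.per z hz, c3_deriv_per (c3_phi_per s0 N j)]
      unfold dBC
      refine (c3_cf_le hs0 ns N j hf hb2).trans (le_of_eq ?_)
      field_simp
      ring
  · intro y
    obtain ⟨a1, a2, a3, a4, a5, a6, a7, a8, a9⟩ := c2 s0 ns N hs0 hs1 hns th hth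
    unfold BC
    rw [c3_block hs0]
    have e : kapN s0 ns th κ (N + 1) (CC s0 ns N th y) =
        hC s0 ns N th (kapN s0 ns th κ N) y - PlC (nC ns N) (hC s0 ns N th (kapN s0 ns th κ N)) y := by
      simp only [kapN]
      rw [a9 y]
    rw [e]
    have hd : deriv (CC s0 ns N th) (y : ℂ) = 1 + deriv (bC s0 ns N th) y := by
      have : HasDerivAt (CC s0 ns N th) (1 + deriv (bC s0 ns N th) y) (y : ℂ) := by
        unfold CC
        exact (hasDerivAt_id' (y : ℂ)).add (a1 (y : ℂ)).hasDerivAt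
      exact this.deriv
    rw [hd]
    unfold hC
    ring

end

end Pool.Agent.Helper67.DO
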