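import Pool.Agent.Helper45.DO.C7a
import Pool.Agent.Helper45.DO.C3

/-!
# ST_C7: integration by parts with finitely many blocks
-/

namespace Pool.Agent.Helper67.DO

open scoped BigOperators Real
open MeasureTheory

noncomputable section

theorem c7_phi_cont (s0 : ℝ) (N : ℕ) (j : ℤ) : Continuous (phiC s0 N j) := (c3_phi_diff s0 N j).continuous

theorem c7_dphi_cont (s0 : ℝ) (N : ℕ) (j : ℤ) : Continuous (deriv (phiC s0 N j)) :=
  (c3_deriv_diff (c3_phi_diff s0 N j)).continuous

/-- derivative of `η_N(y)` with respect to the `i`-th parameter -/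
def c7D (s0 : ℝ) (ns : ℕ) (y : ℝ) (i : ℕ × ℤ) : ℕ → (ℕ × ℤ → ℝ) → ℂ
  | 0, _ => 0
  | (N + 1), th => (1 + (delC s0 ns N : ℂ) * ∑ j ∈ frC ns N, (th (N, j) : ℂ) *
      deriv (phiC s0 N j) (etaN s0 ns th N y)) * c7D s0 ns y i N th +
      (if N = i.1 ∧ i.2 ∈ frC ns N then (delC s0 ns N : ℂ) * phiC s0 N i.2 (etaN s0 ns th N y) else 0)

theorem c7_eta_cont (s0 : ℝ) (ns : ℕ) (y : ℂ) (N : ℕ) : Continuous (fun th : ℕ × ℤ → ℝ => etaN s0 ns th N y) := by
  induction N with
  | zero =>
    simp only [etaN]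
    exact continuous_const
  | succ N ih =>
    simp only [etaN, CC, bC]
    refine ih.add (continuous_const.mul (continuous_finsetSum _ fun j _ => ?_))
    exact (Complex.continuous_ofReal.comp (continuous_apply (N, j))).mul ((c7_phi_cont s0 N j).comp ih)

theorem c7_D_cont (s0 : ℝ) (ns : ℕ) (y : ℝ) (i : ℕ × ℤ) (N : ℕ) : Continuous (c7D s0 ns y i N) := by
  induction N with
  | zero =>
    have : c7D s0 ns y i 0 = fun _ => 0 := by
      funext th
      simp only [c7D]
    rw [this]
    exact continuous_const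
  | succ N ih =>
    have : c7D s0 ns y i (N + 1) = fun th => (1 + (delC s0 ns N : ℂ) * ∑ j ∈ frC ns N, (th (N, j) : ℂ) *
      deriv (phiC s0 N j) (etaN s0 ns th N y)) * c7D s0 ns y i N th +
      (if N = i.1 ∧ i.2 ∈ frC ns N then (delC s0 ns N : ℂ) * phiC s0 N i.2 (etaN s0 ns th N y) else 0) := by
      funext th
      simp only [c7D]
    rw [this]
    have he := c7_eta_cont s0 ns (y : ℂ) N
    refine Continuous.add (Continuous.mul (continuous_const.add (continuous_const.mul
      (continuous_finsetSum _ fun j _ => ?_))) ih) ?_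
    · exact (Complex.continuous_ofReal.comp (continuous_apply (N, j))).mul ((c7_dphi_cont s0 N j).comp he)
    · split_ifs
      · exact continuous_const.mul ((c7_phi_cont s0 N i.2).comp he)
      · exact continuous_const

theorem c7_eta_deriv (s0 : ℝ) (ns : ℕ) (y : ℝ) (i : ℕ × ℤ) (th : ℕ × ℤ → ℝ) (N : ℕ) (t : ℝ) :
    HasDerivAt (fun t : ℝ => etaN s0 ns (Function.update th i t) N y) (c7D s0 ns y i N (Function.update th i t)) t := by
  induction N with
  | zero =>
    simp only [etaN, c7D]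
    exact hasDerivAt_const _ _
  | succ N ih =>
    simp only [etaN, CC, bC, c7D]
    have h1 : ∀ j : ℤ, HasDerivAt (fun t : ℝ => ((Function.update th i t (N, j) : ℝ) : ℂ))
        (if (N, j) = i then 1 else 0) t := by
      intro j
      by_cases h : (N, j) = i
      · subst h
        simp only [Function.update_self, if_true]
        simpa using (hasDerivAt_id' t).ofReal_comp
      · simp only [Function.update_of_ne h, if_neg h]
        exact hasDerivAt_const _ _
    have h2 : ∀ j : ℤ, HasDerivAt (fun t : ℝ => phiC s0 N j (etaN s0 ns (Function.update th i t) N y))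
        (deriv (phiC s0 N j) (etaN s0 ns (Function.update th i t) N y) *
          c7D s0 ns y i N (Function.update th i t)) t := by
      intro j
      exact HasDerivAt.comp (h₂ := phiC s0 N j)
        (h := fun t : ℝ => etaN s0 ns (Function.update th i t) N y) t (c3_phi_diff s0 N j _).hasDerivAt ih
    have h3 := ih.add ((HasDerivAt.fun_sum (u := frC ns N) fun j _ => (h1 j).mul (h2 j)).const_mul
      (delC s0 ns N : ℂ))
    refine h3.congr_deriv ?_
    have h4 : ∑ j ∈ frC ns N, (if (N, j) = i then (1 : ℂ) else 0) *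
        phiC s0 N j (etaN s0 ns (Function.update th i t) N y) =
        if N = i.1 ∧ i.2 ∈ frC ns N then phiC s0 N i.2 (etaN s0 ns (Function.update th i t) N y) else 0 := by
      obtain ⟨a, b⟩ := i
      by_cases ha : N = a
      · subst ha
        simp only [Prod.mk.injEq, true_and, ite_mul, one_mul, zero_mul]
        rw [Finset.sum_ite_eq']
      · have : ∀ j : ℤ, ¬ (N, j) = (a, b) := fun j hj => ha (Prod.mk.inj hj).1
        simp only [this, if_false, zero_mul, Finset.sum_const_zero, ha, false_and]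
    rw [Finset.sum_add_distrib, h4]
    have h5 : ∀ c : ℂ, (if N = i.1 ∧ i.2 ∈ frC ns N then (delC s0 ns N : ℂ) * c else 0) =
        (delC s0 ns N : ℂ) * (if N = i.1 ∧ i.2 ∈ frC ns N then c else 0) := by
      intro c
      split_ifs
      · rfl
      · rw [mul_zero]
    rw [h5, mul_add, add_mul, one_mul, mul_assoc, Finset.sum_mul]
    have h6 : ∀ j : ℤ, ((Function.update th i t (N, j) : ℝ) : ℂ) *
        (deriv (phiC s0 N j) (etaN s0 ns (Function.update th i t) N y) * c7D s0 ns y i N (Function.update th i t)) =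
        ((Function.update th i t (N, j) : ℝ) : ℂ) *
        deriv (phiC s0 N j) (etaN s0 ns (Function.update th i t) N y) * c7D s0 ns y i N (Function.update th i t) :=
      fun j => by ring
    simp only [h6]
    ring

theorem c7_Cu_eq : Cu = Set.pi Set.univ (fun _ : ℕ × ℤ => Set.Icc (-1 : ℝ) 1) := by
  ext th
  simp only [Cu, Set.mem_ofPred_eq, Set.mem_pi, Set.mem_univ, true_implies, Set.mem_Icc, abs_le]

theorem c7_Cu_compact : IsCompact Cu := by
  rw [c7_Cu_eq]
  exact isCompact_univ_pi fun _ => isCompact_Icc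

theorem c7_Cu_meas : MeasurableSet Cu := c7_Cu_compact.isClosed.measurableSet

theorem c7_Cu_ae [IsProbabilityMeasure nuC] : ∀ᵐ th ∂(Measure.infinitePi fun _ : ℕ × ℤ => nuC), th ∈ Cu := by
  have h1 : ∀ᵐ x ∂nuC, |x| ≤ 1 := by
    unfold nuC
    rw [ae_withDensity_iff (by exact c7_p_meas.ennreal_ofReal)]
    refine Filter.Eventually.of_forall fun x hx => ?_
    by_contra hc
    apply hx
    unfold pC
    rw [if_neg hc, ENNReal.ofReal_zero]
  have h2 : ∀ i : ℕ × ℤ, ∀ᵐ th ∂(Measure.infinitePi fun _ : ℕ × ℤ => nuC), |th i| ≤ 1 := by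
    intro i
    have := (measurePreserving_eval_infinitePi (fun _ : ℕ × ℤ => nuC) i)
    exact this.quasiMeasurePreserving.ae h1
  exact (ae_all_iff.2 h2)

theorem c7_meas_of_cont [IsProbabilityMeasure nuC] {f : (ℕ × ℤ → ℝ) → ℂ} (hf : ContinuousOn f Cu) :
    AEStronglyMeasurable f (Measure.infinitePi fun _ : ℕ × ℤ => nuC) := by
  have h := hf.aestronglyMeasurable (μ := Measure.infinitePi fun _ : ℕ × ℤ => nuC) c7_Cu_meas
  rwa [Measure.restrict_eq_self_of_ae_mem c7_Cu_ae] at h

theorem c7_int_of_cont [IsProbabilityMeasure nuC] {f : (ℕ × ℤ → ℝ) → ℂ} (hf : ContinuousOn f Cu) :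
    Integrable f (Measure.infinitePi fun _ : ℕ × ℤ => nuC) := by
  obtain ⟨C, hC⟩ := c7_Cu_compact.exists_bound_of_continuousOn hf
  refine Integrable.of_bound (c7_meas_of_cont hf) C ?_
  filter_upwards [c7_Cu_ae] with th hth
  exact hC th hth

theorem c7_fub {ι : Type*} [DecidableEq ι] (ν : Measure ℝ) [IsProbabilityMeasure ν] (i : ι) {f : (ι → ℝ) → ℂ}
    (hf : Integrable f (Measure.infinitePi fun _ : ι => ν)) :
    ∫ th, f th ∂(Measure.infinitePi fun _ : ι => ν) =
      ∫ th, ∫ t, f (Function.update th i t) ∂ν ∂(Measure.infinitePi fun _ : ι => ν) := by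
  have hm : Measurable (fun x : (ι → ℝ) × ℝ => Function.update x.1 i x.2) := by
    refine measurable_pi_iff.2 fun j => ?_
    by_cases h : j = i
    · subst h
      simpa using measurable_snd
    · simp only [Function.update_of_ne h]
      exact (measurable_pi_apply j).comp measurable_fst
  have hu := c7_update ν i
  have hi : Integrable (fun x : (ι → ℝ) × ℝ => f (Function.update x.1 i x.2))
      ((Measure.infinitePi fun _ : ι => ν).prod ν) := by
    have h1 : Integrable f (Measure.map (fun x : (ι → ℝ) × ℝ => Function.update x.1 i x.2)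
      ((Measure.infinitePi fun _ : ι => ν).prod ν)) := by
      rw [hu]
      exact hf
    exact (integrable_map_measure h1.aestronglyMeasurable hm.aemeasurable).1 h1
  rw [← integral_prod (fun x : (ι → ℝ) × ℝ => f (Function.update x.1 i x.2)) hi]
  conv_lhs => rw [← hu]
  rw [integral_map hm.aemeasurable]
  rw [hu]
  exact hf.aestronglyMeasurable

/-- the exponential -/
def c7X (s0 : ℝ) (ns N : ℕ) {K : ℕ} (y : Fin K → ℝ) (m : Fin K → ℤ) (th : ℕ × ℤ → ℝ) : ℂ :=
  Complex.exp (2 * π * Complex.I * ∑ k, (m k : ℂ) * etaN s0 ns th N (y k))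

def c7X' (s0 : ℝ) (ns N : ℕ) {K : ℕ} (y : Fin K → ℝ) (m : Fin K → ℤ) (i : ℕ × ℤ) (th : ℕ × ℤ → ℝ) : ℂ :=
  c7X s0 ns N y m th * (2 * π * Complex.I * ∑ k, (m k : ℂ) * c7D s0 ns (y k) i N th)

theorem c7_X_cont (s0 : ℝ) (ns N : ℕ) {K : ℕ} (y : Fin K → ℝ) (m : Fin K → ℤ) : Continuous (c7X s0 ns N y m) := by
  unfold c7X
  exact Complex.continuous_exp.comp (continuous_const.mul
    (continuous_finsetSum _ fun k _ => continuous_const.mul (c7_eta_cont s0 ns (y k) N)))

theorem c7_X'_cont (s0 : ℝ) (ns N : ℕ) {K : ℕ} (y : Fin K → ℝ) (m : Fin K → ℤ) (i : ℕ × ℤ) :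
    Continuous (c7X' s0 ns N y m i) := by
  unfold c7X'
  exact (c7_X_cont s0 ns N y m).mul (continuous_const.mul
    (continuous_finsetSum _ fun k _ => continuous_const.mul (c7_D_cont s0 ns (y k) i N)))

theorem c7_X_deriv (s0 : ℝ) (ns N : ℕ) {K : ℕ} (y : Fin K → ℝ) (m : Fin K → ℤ) (i : ℕ × ℤ) (th : ℕ × ℤ → ℝ) (t : ℝ) :
    HasDerivAt (fun t : ℝ => c7X s0 ns N y m (Function.update th i t))
      (c7X' s0 ns N y m i (Function.update th i t)) t := by
  unfold c7X' c7X
  have h1 := (HasDerivAt.fun_sum (u := Finset.univ) fun k _ =>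
    (c7_eta_deriv s0 ns (y k) i th N t).const_mul (m k : ℂ)).const_mul (2 * π * Complex.I)
  exact h1.cexp

/-- integration by parts in one coordinate -/
theorem c7_one [IsProbabilityMeasure nuC] (c4 : ST_C4) {s0 : ℝ} (hs0 : 0 < s0) (hs1 : s0 ≤ 1) {ns : ℕ}
    (hns : 1 ≤ ns) {κ : ℂ → ℂ} (hκ : HB s0 κ) (N : ℕ) {K : ℕ} (y : Fin K → ℝ) (m : Fin K → ℤ) (M : ℕ) (j : ℤ)
    (hj : j ∈ frC ns M) :
    Integrable (fun th => c7X' s0 ns N y m (M, j) th * BC s0 ns th κ M j)
      (Measure.infinitePi fun _ : ℕ × ℤ => nuC) ∧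
    Integrable (fun th => c7X s0 ns N y m th * (dBC s0 ns th κ M j + BC s0 ns th κ M j * (rC (th (M, j)) : ℂ)))
      (Measure.infinitePi fun _ : ℕ × ℤ => nuC) ∧
    ∫ th, c7X' s0 ns N y m (M, j) th * BC s0 ns th κ M j ∂(Measure.infinitePi fun _ : ℕ × ℤ => nuC) =
      - ∫ th, c7X s0 ns N y m th * (dBC s0 ns th κ M j + BC s0 ns th κ M j * (rC (th (M, j)) : ℂ))
        ∂(Measure.infinitePi fun _ : ℕ × ℤ => nuC) := by
  obtain ⟨d1, d2, d3, d4, d5⟩ := c4 s0 ns hs0 hs1 hns
  have hB : ContinuousOn (fun th : ℕ × ℤ → ℝ => BC s0 ns th κ M j) Cu := by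
    have h := (d3 κ hκ M j).1
    have h2 : ContinuousOn (fun th : ℕ × ℤ → ℝ => ((th, (0 : ℝ)) : (ℕ × ℤ → ℝ) × ℝ)) Cu := by fun_prop
    have h3 := h.comp h2 (fun th hth => ⟨hth, Set.mem_univ _⟩)
    refine h3.congr fun th _ => ?_
    simp [Function.comp]
  have hD : ContinuousOn (fun th : ℕ × ℤ → ℝ => dBC s0 ns th κ M j) Cu := by
    have h := (d3 κ hκ M j).2
    have h2 : ContinuousOn (fun th : ℕ × ℤ → ℝ => ((th, (0 : ℝ)) : (ℕ × ℤ → ℝ) × ℝ)) Cu := by fun_prop
    have h3 := h.comp h2 (fun th hth => ⟨hth, Set.mem_univ _⟩)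
    refine h3.congr fun th _ => ?_
    simp [Function.comp]
  have hX := (c7_X_cont s0 ns N y m).continuousOn (s := Cu)
  have hX' := (c7_X'_cont s0 ns N y m (M, j)).continuousOn (s := Cu)
  have hr : Integrable (fun th : ℕ × ℤ → ℝ => (rC (th (M, j)) : ℂ)) (Measure.infinitePi fun _ : ℕ × ℤ => nuC) := by
    have h1 : Integrable (fun th : ℕ × ℤ → ℝ => rC (th (M, j))) (Measure.infinitePi fun _ : ℕ × ℤ => nuC) :=
      (measurePreserving_eval_infinitePi (fun _ : ℕ × ℤ => nuC) (M, j)).integrable_comp_of_integrable c7_r_int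
    exact h1.ofReal
  have i1 : Integrable (fun th => c7X' s0 ns N y m (M, j) th * BC s0 ns th κ M j)
      (Measure.infinitePi fun _ : ℕ × ℤ => nuC) := c7_int_of_cont (hX'.mul hB)
  have i2 : Integrable (fun th => c7X s0 ns N y m th *
      (dBC s0 ns th κ M j + BC s0 ns th κ M j * (rC (th (M, j)) : ℂ)))
      (Measure.infinitePi fun _ : ℕ × ℤ => nuC) := by
    have e : (fun th => c7X s0 ns N y m th *
        (dBC s0 ns th κ M j + BC s0 ns th κ M j * (rC (th (M, j)) : ℂ))) = fun th =>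
        c7X s0 ns N y m th * dBC s0 ns th κ M j +
          (c7X s0 ns N y m th * BC s0 ns th κ M j) * (rC (th (M, j)) : ℂ) := by
      funext th
      ring
    rw [e]
    refine (c7_int_of_cont (hX.mul hD)).add ?_
    obtain ⟨C, hC⟩ := c7_Cu_compact.exists_bound_of_continuousOn (hX.mul hB)
    refine hr.bdd_mul (c := C) (c7_meas_of_cont (hX.mul hB)) ?_
    filter_upwards [c7_Cu_ae] with th hth
    exact hC th hth
  refine ⟨i1, i2, ?_⟩
  rw [c7_fub nuC (M, j) i1, c7_fub nuC (M, j) i2, ← integral_neg]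
  refine integral_congr_ae ?_
  filter_upwards [c7_Cu_ae] with th hth
  set b0 := BC s0 ns (Function.update th (M, j) 0) κ M j with hb0
  set b1 := dBC s0 ns th κ M j with hb1
  have hupd : ∀ t : ℝ, BC s0 ns (Function.update th (M, j) t) κ M j = b0 + t * b1 := fun t =>
    d5 κ hκ M j hj th (fun M' _ i => hth (M', i)) t
  have hdupd : ∀ t : ℝ, dBC s0 ns (Function.update th (M, j) t) κ M j = b1 := by
    intro t
    simp only [hb1, dBC]
    have : kapN s0 ns (Function.update th (M, j) t) κ M = kapN s0 ns th κ M := by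
      refine d4 κ M _ _ fun M' hM' j' => ?_
      rw [Function.update_of_ne]
      intro h
      have := (Prod.mk.inj h).1
      omega
    rw [this]
  have key := c7_ibp1 (F := fun t => c7X s0 ns N y m (Function.update th (M, j) t))
    (F' := fun t => c7X' s0 ns N y m (M, j) (Function.update th (M, j) t)) b0 b1
    (fun t => c7_X_deriv s0 ns N y m (M, j) th t)
    ((c7_X'_cont s0 ns N y m (M, j)).comp (continuous_const.update (M, j) continuous_id))
  simp only [hupd, hdupd, Function.update_self]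
  exact key

theorem st_C7 (_c2 : ST_C2) (_c3 : ST_C3) (c4 : ST_C4) (_c5 : ST_C5) (c6 : ST_C6) : ST_C7 := by
  refine ⟨c7_prob, fun hP s0 ns hs0 hs1 hns => ⟨c7_r_le, ?_⟩⟩
  intro κ hκ N K y m
  have hR : ∀ M ∈ Finset.range N, ∀ j ∈ frC ns M, _ := fun M _ j hj =>
    c7_one c4 hs0 hs1 hns hκ N y m M j hj
  -- left side
  have hL : ∫ th, (2 * π * Complex.I * ∑ k, (m k : ℂ) * (deriv (etaN s0 ns th N) (y k) * κ (y k)
        - kapN s0 ns th κ N (etaN s0 ns th N (y k)))) *
        Complex.exp (2 * π * Complex.I * ∑ k, (m k : ℂ) * etaN s0 ns th N (y k))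
        ∂(Measure.infinitePi fun _ : ℕ × ℤ => nuC) =
      ∑ M ∈ Finset.range N, ∑ j ∈ frC ns M,
        ∫ th, c7X' s0 ns N y m (M, j) th * BC s0 ns th κ M j ∂(Measure.infinitePi fun _ : ℕ × ℤ => nuC) := by
    have h1 : ∫ th, (2 * π * Complex.I * ∑ k, (m k : ℂ) * (deriv (etaN s0 ns th N) (y k) * κ (y k)
        - kapN s0 ns th κ N (etaN s0 ns th N (y k)))) *
        Complex.exp (2 * π * Complex.I * ∑ k, (m k : ℂ) * etaN s0 ns th N (y k))
        ∂(Measure.infinitePi fun _ : ℕ × ℤ => nuC) =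
        ∫ th, ∑ M ∈ Finset.range N, ∑ j ∈ frC ns M, c7X' s0 ns N y m (M, j) th * BC s0 ns th κ M j
          ∂(Measure.infinitePi fun _ : ℕ × ℤ => nuC) := by
      refine integral_congr_ae ?_
      filter_upwards [c7_Cu_ae] with th hth
      have h2 : ∀ k, deriv (etaN s0 ns th N) (y k) * κ (y k) - kapN s0 ns th κ N (etaN s0 ns th N (y k)) =
          ∑ M ∈ Finset.range N, ∑ j ∈ frC ns M, c7D s0 ns (y k) (M, j) N th * BC s0 ns th κ M j := by
        intro k
        rw [← c6 s0 ns hs0 hs1 hns th hth κ hκ N (y k)]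
        refine Finset.sum_congr rfl fun M _ => Finset.sum_congr rfl fun j _ => ?_
        have h3 := (c7_eta_deriv s0 ns (y k) (M, j) th N (th (M, j))).deriv
        rw [Function.update_eq_self] at h3
        rw [h3]
      simp only [h2]
      unfold c7X' c7X
      simp only [Finset.mul_sum, Finset.sum_mul]
      rw [Finset.sum_comm]
      refine Finset.sum_congr rfl fun M _ => ?_
      rw [Finset.sum_comm]
      refine Finset.sum_congr rfl fun j _ => Finset.sum_congr rfl fun k _ => ?_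
      ring
    rw [h1, integral_finsetSum _ fun M hM => integrable_finsetSum _ fun j hj => (hR M hM j hj).1]
    refine Finset.sum_congr rfl fun M hM => ?_
    rw [integral_finsetSum _ fun j hj => (hR M hM j hj).1]
  have hRR : ∫ th, Complex.exp (2 * π * Complex.I * ∑ k, (m k : ℂ) * etaN s0 ns th N (y k)) *
          ∑ M ∈ Finset.range N, wN s0 ns th κ M ∂(Measure.infinitePi fun _ : ℕ × ℤ => nuC) =
      ∑ M ∈ Finset.range N, ∑ j ∈ frC ns M,
        - ∫ th, c7X s0 ns N y m th * (dBC s0 ns th κ M j + BC s0 ns th κ M j * (rC (th (M, j)) : ℂ))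
          ∂(Measure.infinitePi fun _ : ℕ × ℤ => nuC) := by
    have h1 : ∀ th : ℕ × ℤ → ℝ, Complex.exp (2 * π * Complex.I * ∑ k, (m k : ℂ) * etaN s0 ns th N (y k)) *
          ∑ M ∈ Finset.range N, wN s0 ns th κ M =
        ∑ M ∈ Finset.range N, ∑ j ∈ frC ns M,
          - (c7X s0 ns N y m th * (dBC s0 ns th κ M j + BC s0 ns th κ M j * (rC (th (M, j)) : ℂ))) := by
      intro th
      unfold wN c7X
      rw [Finset.mul_sum]
      refine Finset.sum_congr rfl fun M _ => ?_
      rw [mul_neg, Finset.mul_sum, Finset.sum_neg_distrib]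
    simp only [h1]
    have hN : ∀ M ∈ Finset.range N, ∀ j ∈ frC ns M, Integrable (fun th => -(c7X s0 ns N y m th *
        (dBC s0 ns th κ M j + BC s0 ns th κ M j * (rC (th (M, j)) : ℂ))))
        (Measure.infinitePi fun _ : ℕ × ℤ => nuC) := fun M hM j hj => (hR M hM j hj).2.1.neg
    rw [integral_finsetSum _ fun M hM => integrable_finsetSum _ fun j hj => hN M hM j hj]
    refine Finset.sum_congr rfl fun M hM => ?_
    rw [integral_finsetSum _ fun j hj => hN M hM j hj]
    refine Finset.sum_congr rfl fun j _ => ?_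
    rw [integral_neg]
  rw [hL, hRR]
  exact Finset.sum_congr rfl fun M hM => Finset.sum_congr rfl fun j hj => (hR M hM j hj).2.2

end

end Pool.Agent.Helper67.DO
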