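import Pool.Agent.Helper67.DO.DefsC

/-!
# The law `nuC`, one-dimensional integration by parts, update of one coordinate in an infinite product
-/

namespace Pool.Agent.Helper67.DO

open scoped BigOperators Real
open MeasureTheory

noncomputable section

theorem c7_p_nonneg (x : ℝ) : 0 ≤ pC x := by
  unfold pC
  split_ifs
  · positivity
  · exact le_rfl

theorem c7_p_eq (x : ℝ) : pC x = (Set.Icc (-1 : ℝ) 1).indicator (fun x => 15 / 16 * (1 - x ^ 2) ^ 2) x := by
  unfold pC
  simp only [Set.indicator_apply, Set.mem_Icc, ← abs_le]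

theorem c7_p_meas : Measurable pC := by
  have : pC = (Set.Icc (-1 : ℝ) 1).indicator (fun x => 15 / 16 * (1 - x ^ 2) ^ 2) := funext c7_p_eq
  rw [this]
  exact Measurable.indicator (by fun_prop) measurableSet_Icc

theorem c7_integral {E : Type*} [NormedAddCommGroup E] [NormedSpace ℝ E] (f : ℝ → E) :
    ∫ x, f x ∂nuC = ∫ x in (-1 : ℝ)..1, (15 / 16 * (1 - x ^ 2) ^ 2 : ℝ) • f x := by
  unfold nuC
  rw [integral_withDensity_eq_integral_toReal_smul (by exact c7_p_meas.ennreal_ofReal)
    (Filter.Eventually.of_forall fun x => ENNReal.ofReal_lt_top)]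
  have h1 : (fun x => (ENNReal.ofReal (pC x)).toReal • f x) =
      (Set.Icc (-1 : ℝ) 1).indicator (fun x => (15 / 16 * (1 - x ^ 2) ^ 2 : ℝ) • f x) := by
    funext x
    rw [ENNReal.toReal_ofReal (c7_p_nonneg x), c7_p_eq]
    by_cases hx : x ∈ Set.Icc (-1 : ℝ) 1
    · rw [Set.indicator_of_mem hx, Set.indicator_of_mem hx]
    · rw [Set.indicator_of_notMem hx, Set.indicator_of_notMem hx, zero_smul]
  rw [h1, integral_indicator measurableSet_Icc, integral_Icc_eq_integral_Ioc,
    intervalIntegral.integral_of_le (by norm_num)]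

theorem c7_integrable {E : Type*} [NormedAddCommGroup E] [NormedSpace ℝ E] {f : ℝ → E}
    (hf : IntervalIntegrable (fun x => (15 / 16 * (1 - x ^ 2) ^ 2 : ℝ) • f x) volume (-1) 1) :
    Integrable f nuC := by
  unfold nuC
  rw [integrable_withDensity_iff_integrable_smul' (by exact c7_p_meas.ennreal_ofReal)
    (Filter.Eventually.of_forall fun x => ENNReal.ofReal_lt_top)]
  have h1 : (fun x => (ENNReal.ofReal (pC x)).toReal • f x) =
      (Set.Icc (-1 : ℝ) 1).indicator (fun x => (15 / 16 * (1 - x ^ 2) ^ 2 : ℝ) • f x) := by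
    funext x
    rw [ENNReal.toReal_ofReal (c7_p_nonneg x), c7_p_eq]
    by_cases hx : x ∈ Set.Icc (-1 : ℝ) 1
    · rw [Set.indicator_of_mem hx, Set.indicator_of_mem hx]
    · rw [Set.indicator_of_notMem hx, Set.indicator_of_notMem hx, zero_smul]
  rw [h1, integrable_indicator_iff measurableSet_Icc, integrableOn_Icc_iff_integrableOn_Ioc]
  rwa [intervalIntegrable_iff_integrableOn_Ioc_of_le (by norm_num)] at hf

theorem c7_total : ∫ x in (-1 : ℝ)..1, (15 / 16 * (1 - x ^ 2) ^ 2 : ℝ) = 1 := by
  have : ∀ x ∈ Set.uIcc (-1 : ℝ) 1,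
      HasDerivAt (fun x : ℝ => 15 / 16 * (x - 2 * x ^ 3 / 3 + x ^ 5 / 5)) (15 / 16 * (1 - x ^ 2) ^ 2) x := by
    intro x _
    have h := (((hasDerivAt_id' x).sub ((((hasDerivAt_pow 3 x).const_mul 2)).div_const 3)).add
      ((hasDerivAt_pow 5 x).div_const 5)).const_mul (15 / 16)
    refine h.congr_deriv ?_
    push_cast
    ring
  rw [intervalIntegral.integral_eq_sub_of_hasDerivAt this (by
    apply Continuous.intervalIntegrable; fun_prop)]
  norm_num

theorem c7_prob : IsProbabilityMeasure nuC := by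
  constructor
  unfold nuC
  rw [withDensity_apply _ MeasurableSet.univ, Measure.restrict_univ]
  have hi : Integrable pC := by
    have : pC = (Set.Icc (-1 : ℝ) 1).indicator (fun x => 15 / 16 * (1 - x ^ 2) ^ 2) := funext c7_p_eq
    rw [this, integrable_indicator_iff measurableSet_Icc]
    exact ContinuousOn.integrableOn_compact isCompact_Icc (by fun_prop)
  rw [← ofReal_integral_eq_lintegral_ofReal hi (Filter.Eventually.of_forall c7_p_nonneg)]
  have : ∫ x, pC x = 1 := by
    have h1 : pC = (Set.Icc (-1 : ℝ) 1).indicator (fun x => 15 / 16 * (1 - x ^ 2) ^ 2) := funext c7_p_eq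
    rw [h1, integral_indicator measurableSet_Icc, integral_Icc_eq_integral_Ioc,
      ← intervalIntegral.integral_of_le (by norm_num), c7_total]
  rw [this, ENNReal.ofReal_one]

theorem c7_pr (x : ℝ) : 15 / 16 * (1 - x ^ 2) ^ 2 * rC x = -(15 / 4 * x * (1 - x ^ 2)) := by
  unfold rC
  by_cases h : 1 - x ^ 2 = 0
  · rw [h]
    simp
  · field_simp
    ring

theorem c7_r_meas : Measurable rC := by
  unfold rC
  fun_prop

theorem c7_r_int : Integrable rC nuC := by
  refine c7_integrable ?_
  have : (fun x => (15 / 16 * (1 - x ^ 2) ^ 2 : ℝ) • rC x) = fun x : ℝ => -(15 / 4 * x * (1 - x ^ 2)) := by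
    funext x
    rw [smul_eq_mul, c7_pr]
  rw [this]
  apply Continuous.intervalIntegrable
  fun_prop

theorem c7_r_le : (∫ x, |rC x| ∂nuC) ≤ 2 := by
  rw [c7_integral]
  have h1 : ∀ x ∈ Set.uIcc (-1 : ℝ) 1, (15 / 16 * (1 - x ^ 2) ^ 2 : ℝ) • |rC x| = 15 / 4 * |x| * (1 - x ^ 2) := by
    intro x hx
    rw [Set.uIcc_of_le (by norm_num)] at hx
    have h2 : 0 ≤ 1 - x ^ 2 := by nlinarith [hx.1, hx.2]
    have h3 := congrArg abs (c7_pr x)
    rw [abs_mul, abs_neg, abs_of_nonneg (by positivity : (0 : ℝ) ≤ 15 / 16 * (1 - x ^ 2) ^ 2)] at h3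
    rw [smul_eq_mul, h3, abs_mul, abs_mul, abs_of_nonneg h2]
    norm_num
  rw [intervalIntegral.integral_congr h1]
  have hc : Continuous (fun x : ℝ => 15 / 4 * |x| * (1 - x ^ 2)) := by fun_prop
  rw [← intervalIntegral.integral_add_adjacent_intervals (b := 0) (hc.intervalIntegrable _ _)
    (hc.intervalIntegrable _ _)]
  have e1 : ∫ x in (-1 : ℝ)..0, 15 / 4 * |x| * (1 - x ^ 2) = 15 / 16 := by
    have h2 : ∀ x ∈ Set.uIcc (-1 : ℝ) 0, 15 / 4 * |x| * (1 - x ^ 2) = 15 / 4 * (-x + x ^ 3) := by
      intro x hx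
      rw [Set.uIcc_of_le (by norm_num)] at hx
      rw [abs_of_nonpos hx.2]
      ring
    rw [intervalIntegral.integral_congr h2]
    have h3 : ∀ x ∈ Set.uIcc (-1 : ℝ) 0,
        HasDerivAt (fun x : ℝ => 15 / 4 * (-(x ^ 2 / 2) + x ^ 4 / 4)) (15 / 4 * (-x + x ^ 3)) x := by
      intro x _
      have h := (((hasDerivAt_pow 2 x).div_const 2).neg.add ((hasDerivAt_pow 4 x).div_const 4)).const_mul (15 / 4)
      refine h.congr_deriv ?_
      push_cast
      ring
    rw [intervalIntegral.integral_eq_sub_of_hasDerivAt h3 (by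
      apply Continuous.intervalIntegrable; fun_prop)]
    norm_num
  have e2 : ∫ x in (0 : ℝ)..1, 15 / 4 * |x| * (1 - x ^ 2) = 15 / 16 := by
    have h2 : ∀ x ∈ Set.uIcc (0 : ℝ) 1, 15 / 4 * |x| * (1 - x ^ 2) = 15 / 4 * (x - x ^ 3) := by
      intro x hx
      rw [Set.uIcc_of_le (by norm_num)] at hx
      rw [abs_of_nonneg hx.1]
      ring
    rw [intervalIntegral.integral_congr h2]
    have h3 : ∀ x ∈ Set.uIcc (0 : ℝ) 1,
        HasDerivAt (fun x : ℝ => 15 / 4 * ((x ^ 2 / 2) - x ^ 4 / 4)) (15 / 4 * (x - x ^ 3)) x := by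
      intro x _
      have h := (((hasDerivAt_pow 2 x).div_const 2).sub ((hasDerivAt_pow 4 x).div_const 4)).const_mul (15 / 4)
      refine h.congr_deriv ?_
      push_cast
      ring
    rw [intervalIntegral.integral_eq_sub_of_hasDerivAt h3 (by
      apply Continuous.intervalIntegrable; fun_prop)]
    norm_num
  rw [e1, e2]
  norm_num

/-- one-dimensional integration by parts against `nuC` with an affine factor -/
theorem c7_ibp1 {F F' : ℝ → ℂ} (b0 b1 : ℂ) (hF : ∀ t, HasDerivAt F (F' t) t) (hF' : Continuous F') :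
    ∫ t, F' t * (b0 + t * b1) ∂nuC = - ∫ t, F t * (b1 + (b0 + t * b1) * (rC t : ℂ)) ∂nuC := by
  rw [c7_integral, c7_integral]
  set v : ℝ → ℂ := fun t => ((15 / 16 * (1 - t ^ 2) ^ 2 : ℝ) : ℂ) * (b0 + t * b1) with hv
  set v' : ℝ → ℂ := fun t => ((-(15 / 4 * t * (1 - t ^ 2)) : ℝ) : ℂ) * (b0 + t * b1) +
    ((15 / 16 * (1 - t ^ 2) ^ 2 : ℝ) : ℂ) * b1 with hv'
  have hvd : ∀ t : ℝ, HasDerivAt v (v' t) t := by
    intro t
    have h1 : HasDerivAt (fun t : ℝ => 15 / 16 * (1 - t ^ 2) ^ 2) (-(15 / 4 * t * (1 - t ^ 2))) t := by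
      have h := ((((hasDerivAt_pow 2 t).const_sub 1)).pow 2).const_mul (15 / 16)
      refine h.congr_deriv ?_
      push_cast
      ring
    have h2 : HasDerivAt (fun t : ℝ => b0 + (t : ℂ) * b1) b1 t := by
      have h := ((hasDerivAt_id' t).ofReal_comp.mul_const b1).const_add b0
      refine h.congr_deriv ?_
      simp
    exact h1.ofReal_comp.mul h2
  have hFc : Continuous F := continuous_iff_continuousAt.2 fun t => (hF t).continuousAt
  have key := intervalIntegral.integral_mul_deriv_eq_deriv_mul (a := (-1 : ℝ)) (b := 1)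
    (u := F) (v := v) (u' := F') (v' := v') (fun t _ => hF t) (fun t _ => hvd t)
    (hF'.intervalIntegrable _ _) (by
      apply Continuous.intervalIntegrable
      simp only [hv']
      fun_prop)
  have hv1 : v 1 = 0 := by simp [hv]
  have hvm : v (-1) = 0 := by simp [hv]
  rw [hv1, hvm] at key
  simp only [mul_zero, sub_zero, zero_sub] at key
  have e1 : ∫ x in (-1 : ℝ)..1, (15 / 16 * (1 - x ^ 2) ^ 2 : ℝ) • (F' x * (b0 + x * b1)) =
      ∫ x in (-1 : ℝ)..1, F' x * v x := by
    apply intervalIntegral.integral_congr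
    intro x _
    simp only [hv, Complex.real_smul]
    ring
  have e2 : ∫ x in (-1 : ℝ)..1, (15 / 16 * (1 - x ^ 2) ^ 2 : ℝ) • (F x * (b1 + (b0 + x * b1) * (rC x : ℂ))) =
      ∫ x in (-1 : ℝ)..1, F x * v' x := by
    apply intervalIntegral.integral_congr
    intro x _
    simp only [hv', Complex.real_smul]
    rw [← c7_pr]
    push_cast
    ring
  rw [e1, e2, key]
  ring

/-- resampling one coordinate of an infinite product -/
theorem c7_update {ι : Type*} [DecidableEq ι] (ν : Measure ℝ) [IsProbabilityMeasure ν] (i : ι) :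
    Measure.map (fun x : (ι → ℝ) × ℝ => Function.update x.1 i x.2)
      ((Measure.infinitePi fun _ : ι => ν).prod ν) = Measure.infinitePi fun _ : ι => ν := by
  refine Measure.eq_infinitePi (fun _ : ι => ν) fun s t ht => ?_
  have hm : Measurable (fun x : (ι → ℝ) × ℝ => Function.update x.1 i x.2) := by
    refine measurable_pi_iff.2 fun j => ?_
    by_cases h : j = i
    · subst h
      simpa using measurable_snd
    · simp only [Function.update_of_ne h]
      exact (measurable_pi_apply j).comp measurable_fst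
  rw [Measure.map_apply hm (MeasurableSet.pi s.countable_toSet fun j _ => ht j)]
  by_cases hi : i ∈ s
  · have : (fun x : (ι → ℝ) × ℝ => Function.update x.1 i x.2) ⁻¹' (Set.pi (s : Set ι) t) =
        (Set.pi ((s.erase i : Finset ι) : Set ι) t) ×ˢ (t i) := by
      ext ⟨x, y⟩
      simp only [Set.mem_preimage, Set.mem_pi, Set.mem_prod, Finset.mem_coe, Finset.mem_erase]
      constructor
      · intro h
        refine ⟨fun j hj => ?_, ?_⟩
        · have := h j hj.2
          rwa [Function.update_of_ne hj.1] at this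
        · have := h i hi
          rwa [Function.update_self] at this
      · rintro ⟨h1, h2⟩ j hj
        by_cases hji : j = i
        · subst hji
          rwa [Function.update_self]
        · rw [Function.update_of_ne hji]
          exact h1 j ⟨hji, hj⟩
    rw [this, Measure.prod_prod, Measure.infinitePi_pi _ (fun j _ => ht j), mul_comm]
    exact Finset.mul_prod_erase s (fun j => ν (t j)) hi
  · have : (fun x : (ι → ℝ) × ℝ => Function.update x.1 i x.2) ⁻¹' (Set.pi (s : Set ι) t) =
        (Set.pi (s : Set ι) t) ×ˢ Set.univ := by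
      ext ⟨x, y⟩
      simp only [Set.mem_preimage, Set.mem_pi, Set.mem_prod, Finset.mem_coe, Set.mem_univ, and_true]
      refine forall₂_congr fun j hj => ?_
      have hji : j ≠ i := by
        rintro rfl
        exact hi hj
      rw [Function.update_of_ne hji]
    rw [this, Measure.prod_prod, Measure.infinitePi_pi _ (fun j _ => ht j), measure_univ, mul_one]

end

end Pool.Agent.Helper67.DO
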