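import Pool.Agent.Helper67.DO.DefsC

/-!
# Fourier series of bounded periodic holomorphic functions on a strip
-/

namespace Pool.Agent.Helper67.DO

open scoped BigOperators Real
open MeasureTheory

noncomputable section

theorem c3_mem_St {s : ℝ} {z : ℂ} (h : |z.im| < s) : z ∈ St s := h

theorem c3_isOpen_St (s : ℝ) : IsOpen (St s) :=
  isOpen_lt (continuous_abs.comp Complex.continuous_im) continuous_const

theorem c3_St_mono {s t : ℝ} (h : s ≤ t) : St s ⊆ St t := fun _ hz => lt_of_lt_of_le hz h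

/-- contour shift -/
theorem c3_shift_gen {s : ℝ} {f : ℂ → ℂ} (hf : DifferentiableOn ℂ f (St s))
    (hp : ∀ z ∈ St s, f (z + 1) = f z) {y : ℝ} (hy : |y| < s) :
    ∫ x in (0 : ℝ)..1, f x = ∫ x in (0 : ℝ)..1, f (x + y * Complex.I) := by
  have hs : 0 < s := lt_of_le_of_lt (abs_nonneg _) hy
  have key := Complex.integral_boundary_rect_eq_zero_of_differentiableOn f 0 (1 + y * Complex.I)
    (by
      refine hf.mono ?_
      intro z hz
      rw [Complex.mem_reProdIm] at hz
      have h2 := hz.2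
      simp only [Complex.zero_im, Complex.add_im, Complex.one_im, Complex.mul_im, Complex.ofReal_re,
        Complex.I_im, mul_one, Complex.ofReal_im, Complex.I_re, mul_zero, add_zero, zero_add] at h2
      refine lt_of_le_of_lt ?_ hy
      have h3 := Set.abs_sub_left_of_mem_uIcc h2
      simpa using h3)
  simp only [Complex.zero_re, Complex.zero_im, Complex.add_re, Complex.one_re, Complex.mul_re,
    Complex.ofReal_re, Complex.I_re, mul_zero, Complex.ofReal_im, Complex.I_im, mul_one, sub_self,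
    add_zero, Complex.add_im, Complex.one_im, Complex.mul_im, zero_add, Complex.ofReal_zero,
    zero_mul, Complex.ofReal_one, smul_eq_mul] at key
  have hv : ∫ t in (0 : ℝ)..y, f (1 + t * Complex.I) = ∫ t in (0 : ℝ)..y, f (t * Complex.I) := by
    apply intervalIntegral.integral_congr
    intro t ht
    have h3 := Set.abs_sub_left_of_mem_uIcc ht
    simp only [sub_zero] at h3
    have : ((t : ℂ) * Complex.I) ∈ St s := by
      refine c3_mem_St ?_
      simp only [Complex.mul_im, Complex.ofReal_re, Complex.I_im, mul_one, Complex.ofReal_im, Complex.I_re,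
        mul_zero, add_zero]
      exact lt_of_le_of_lt h3 hy
    have h4 := hp _ this
    simp only
    rw [← h4, add_comm]
  rw [hv] at key
  have h5 : (∫ x in (0 : ℝ)..1, f x) - ∫ x in (0 : ℝ)..1, f (x + y * Complex.I) = 0 := by
    linear_combination key
  exact sub_eq_zero.1 h5

theorem c3_expmul_per (l : ℤ) (z : ℂ) :
    Complex.exp (-(2 * π * Complex.I * l * (z + 1))) = Complex.exp (-(2 * π * Complex.I * l * z)) := by
  rw [Complex.exp_eq_exp_iff_exists_int]
  exact ⟨-l, by push_cast; ring⟩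

theorem c3_shift {s : ℝ} {h : ℂ → ℂ} (hd : DifferentiableOn ℂ h (St s))
    (hp : ∀ z ∈ St s, h (z + 1) = h z) {y : ℝ} (hy : |y| < s) (l : ℤ) :
    fcC h l = ∫ x in (0 : ℝ)..1, h (x + y * Complex.I) *
      Complex.exp (-(2 * π * Complex.I * l * (x + y * Complex.I))) := by
  unfold fcC
  refine c3_shift_gen (f := fun z => h z * Complex.exp (-(2 * π * Complex.I * l * z))) ?_ ?_ hy
  · exact hd.mul (by fun_prop)
  · intro z hz
    rw [hp z hz, c3_expmul_per]

theorem c3_norm_exp (l : ℤ) (x y : ℝ) :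
    ‖Complex.exp (-(2 * π * Complex.I * l * (x + y * Complex.I)))‖ = Real.exp (2 * π * l * y) := by
  rw [Complex.norm_exp]
  congr 1
  simp [Complex.mul_re, Complex.mul_im]

/-- decay of the Fourier coefficients -/
theorem c3_fc_le {s : ℝ} {h : ℂ → ℂ} (hd : DifferentiableOn ℂ h (St s))
    (hp : ∀ z ∈ St s, h (z + 1) = h z) (hs : 0 < s) {B : ℝ} (hB : ∀ z ∈ St s, ‖h z‖ ≤ B) (l : ℤ) :
    ‖fcC h l‖ ≤ B * Real.exp (-(2 * π * s * |(l : ℝ)|)) := by
  have hB0 : 0 ≤ B := (norm_nonneg _).trans (hB 0 (by simpa [St] using hs))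
  have key : ∀ t : ℝ, 0 ≤ t → t < s → ‖fcC h l‖ ≤ B * Real.exp (-(2 * π * t * |(l : ℝ)|)) := by
    intro t ht hts
    obtain ⟨y, hy, hy2⟩ : ∃ y : ℝ, |y| < s ∧ 2 * π * l * y = -(2 * π * t * |(l : ℝ)|) := by
      rcases le_total 0 (l : ℝ) with hl | hl
      · exact ⟨-t, by rw [abs_neg, abs_of_nonneg ht]; exact hts, by rw [abs_of_nonneg hl]; ring⟩
      · exact ⟨t, by rw [abs_of_nonneg ht]; exact hts, by rw [abs_of_nonpos hl]; ring⟩
    rw [c3_shift hd hp hy l]
    have := intervalIntegral.norm_integral_le_of_norm_le_const (a := (0 : ℝ)) (b := 1)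
      (C := B * Real.exp (-(2 * π * t * |(l : ℝ)|)))
      (f := fun x : ℝ => h (x + y * Complex.I) * Complex.exp (-(2 * π * Complex.I * l * (x + y * Complex.I))))
      (fun x _ => by
        rw [norm_mul, c3_norm_exp, hy2]
        refine mul_le_mul_of_nonneg_right (hB _ ?_) (Real.exp_pos _).le
        refine c3_mem_St ?_
        simpa using hy)
    simpa using this
  have hlim : Filter.Tendsto (fun t : ℝ => B * Real.exp (-(2 * π * t * |(l : ℝ)|))) (nhdsWithin s (Set.Iio s))
      (nhds (B * Real.exp (-(2 * π * s * |(l : ℝ)|)))) := by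
    refine Filter.Tendsto.mono_left ?_ nhdsWithin_le_nhds
    refine Continuous.tendsto ?_ s
    fun_prop
  refine ge_of_tendsto hlim ?_
  filter_upwards [Ioo_mem_nhdsLT hs] with t ht
  exact key t ht.1.le ht.2

theorem c3_summable_exp {a : ℝ} (ha : 0 < a) : Summable (fun l : ℤ => Real.exp (-(a * |(l : ℝ)|))) := by
  have h1 : Summable (fun n : ℕ => Real.exp (-(a * n))) := by
    have : (fun n : ℕ => Real.exp (-(a * n))) = fun n : ℕ => (Real.exp (-a)) ^ n := by
      funext n
      rw [← Real.exp_nat_mul]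
      ring_nf
    rw [this]
    exact summable_geometric_of_lt_one (Real.exp_pos _).le (Real.exp_lt_one_iff.2 (by linarith))
  refine Summable.of_nat_of_neg ?_ ?_
  · refine h1.congr fun n => ?_
    simp
  · refine h1.congr fun n => ?_
    simp

/-- Fourier series on a strip -/
theorem c3_hasSum {s : ℝ} {h : ℂ → ℂ} (hd : DifferentiableOn ℂ h (St s))
    (hp : ∀ z ∈ St s, h (z + 1) = h z) (hs : 0 < s) {B : ℝ} (hB : ∀ z ∈ St s, ‖h z‖ ≤ B) {z : ℂ} (hz : z ∈ St s) :
    HasSum (fun l : ℤ => fcC h l * Complex.exp (2 * π * Complex.I * l * z)) (h z) := by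
  have hB0 : 0 ≤ B := (norm_nonneg _).trans (hB 0 (by simpa [St] using hs))
  have hy : |z.im| < s := hz
  set y := z.im with hydef
  set g : ℝ → ℂ := fun x => h (x + y * Complex.I) with hg
  have hmem : ∀ x : ℝ, ((x : ℂ) + y * Complex.I) ∈ St s := fun x => by
    refine c3_mem_St ?_
    simpa using hy
  have hgc : Continuous g := by
    have h1 : ContinuousOn h (St s) := hd.continuousOn
    exact h1.comp_continuous (by fun_prop) hmem
  have hgp : Function.Periodic g (1 : ℝ) := by
    intro x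
    simp only [hg]
    have := hp _ (hmem x)
    rw [← this]
    push_cast
    ring_nf
  have : Fact ((0 : ℝ) < 1) := ⟨one_pos⟩
  set G : C(AddCircle (1 : ℝ), ℂ) := ⟨hgp.lift, continuous_coinduced_dom.mpr hgc⟩ with hG
  have hcoef : ∀ l : ℤ, fourierCoeff (G : AddCircle (1 : ℝ) → ℂ) l =
      fcC h l * Complex.exp (2 * π * Complex.I * l * (y * Complex.I)) := by
    intro l
    rw [fourierCoeff_eq_intervalIntegral _ l 0, c3_shift hd hp hy l]
    simp only [div_one, one_smul, zero_add]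
    rw [← intervalIntegral.integral_mul_const]
    apply intervalIntegral.integral_congr
    intro x _
    simp only [fourier_coe_apply, smul_eq_mul]
    have : (G : AddCircle (1 : ℝ) → ℂ) (x : AddCircle (1 : ℝ)) = g x := by
      simp only [hG, ContinuousMap.coe_mk]
      exact hgp.lift_coe x
    rw [this]
    simp only [hg]
    rw [mul_assoc (h _), ← Complex.exp_add, mul_comm]
    congr 2
    push_cast
    ring
  have hsum : Summable (fourierCoeff (G : AddCircle (1 : ℝ) → ℂ)) := by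
    have ha : 0 < 2 * π * (s - |y|) := by
      have := Real.pi_pos
      have h2 : 0 < s - |y| := by linarith
      positivity
    refine Summable.of_norm_bounded (g := fun l : ℤ => B * Real.exp (-(2 * π * (s - |y|) * |(l : ℝ)|)))
      ((c3_summable_exp ha).mul_left B) ?_
    intro l
    rw [hcoef l, norm_mul]
    have h1 := c3_fc_le hd hp hs hB l
    have h2 : ‖Complex.exp (2 * π * Complex.I * l * (y * Complex.I))‖ ≤ Real.exp (2 * π * |y| * |(l : ℝ)|) := by
      rw [Complex.norm_exp]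
      refine Real.exp_le_exp.2 ?_
      have : (2 * π * Complex.I * l * (y * Complex.I)).re = -(2 * π * (l * y)) := by
        simp [Complex.mul_re, Complex.mul_im]
        ring
      rw [this]
      have h3 : -(l * y : ℝ) ≤ |y| * |(l : ℝ)| := by
        calc -((l : ℝ) * y) ≤ |(l : ℝ) * y| := neg_le_abs _
          _ = |y| * |(l : ℝ)| := by rw [abs_mul, mul_comm]
      have := Real.pi_pos
      nlinarith
    calc ‖fcC h l‖ * ‖Complex.exp (2 * π * Complex.I * l * (y * Complex.I))‖
        ≤ (B * Real.exp (-(2 * π * s * |(l : ℝ)|))) * Real.exp (2 * π * |y| * |(l : ℝ)|) :=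
          mul_le_mul h1 h2 (norm_nonneg _) (by positivity)
      _ = B * Real.exp (-(2 * π * (s - |y|) * |(l : ℝ)|)) := by
          rw [mul_assoc, ← Real.exp_add]
          ring_nf
  have := has_pointwise_sum_fourier_series_of_summable hsum (z.re : AddCircle (1 : ℝ))
  have hv : (G : AddCircle (1 : ℝ) → ℂ) (z.re : AddCircle (1 : ℝ)) = h z := by
    simp only [hG, ContinuousMap.coe_mk]
    have : hgp.lift ((z.re : ℝ) : AddCircle (1 : ℝ)) = g z.re := hgp.lift_coe z.re
    rw [this]
    simp only [hg, hydef, Complex.re_add_im]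
  rw [hv] at this
  have he : (fun i : ℤ => fourierCoeff (G : AddCircle (1 : ℝ) → ℂ) i • (fourier i) ((z.re : ℝ) : AddCircle (1 : ℝ))) =
      fun l : ℤ => fcC h l * Complex.exp (2 * π * Complex.I * l * z) := by
    funext l
    rw [hcoef l, fourier_coe_apply, smul_eq_mul, mul_assoc, ← Complex.exp_add]
    congr 2
    have hz2 : z = (z.re : ℂ) + (y : ℂ) * Complex.I := (Complex.re_add_im z).symm
    rw [show 2 * (π : ℂ) * Complex.I * l * z = 2 * (π : ℂ) * Complex.I * l * ((z.re : ℂ) + (y : ℂ) * Complex.I) by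
      rw [← hz2]]
    push_cast
    ring
  rw [he] at this
  exact this

theorem c3_Icc_succ (f : ℤ → ℂ) (m : ℕ) : ∑ l ∈ Finset.Icc (-((m + 1 : ℕ) : ℤ)) ((m + 1 : ℕ) : ℤ), f l =
    ∑ l ∈ Finset.Icc (-(m : ℤ)) (m : ℤ), f l + (f ((m : ℤ) + 1) + f (-((m : ℤ) + 1))) := by
  have h1 : Finset.Icc (-((m + 1 : ℕ) : ℤ)) ((m + 1 : ℕ) : ℤ) =
      insert ((m : ℤ) + 1) (insert (-((m : ℤ) + 1)) (Finset.Icc (-(m : ℤ)) (m : ℤ))) := by
    ext x
    simp only [Finset.mem_Icc, Finset.mem_insert]
    push_cast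
    omega
  rw [h1, Finset.sum_insert, Finset.sum_insert]
  · ring
  · simp only [Finset.mem_Icc]
    omega
  · simp only [Finset.mem_Icc, Finset.mem_insert]
    omega

theorem c3_tendsto_Icc {f : ℤ → ℂ} {a : ℂ} (h : HasSum f a) :
    Filter.Tendsto (fun m : ℕ => ∑ l ∈ Finset.Icc (-(m : ℤ)) (m : ℤ), f l) Filter.atTop (nhds a) := by
  have h1 : Filter.Tendsto (fun m : ℕ => Finset.Icc (-(m : ℤ)) (m : ℤ)) Filter.atTop Filter.atTop := by
    refine Filter.tendsto_atTop_finset_of_monotone ?_ ?_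
    · intro a b hab x hx
      simp only [Finset.mem_Icc] at hx ⊢
      omega
    · intro x
      refine ⟨x.natAbs, ?_⟩
      simp only [Finset.mem_Icc]
      omega
  have h2 : Filter.Tendsto (fun s : Finset ℤ => ∑ b ∈ s, f b) Filter.atTop (nhds a) := by
    simpa [HasSum] using h
  exact h2.comp h1

/-- tail of the Fourier series on a smaller strip -/
theorem c3_tail {s : ℝ} {h : ℂ → ℂ} (hd : DifferentiableOn ℂ h (St s))
    (hp : ∀ z ∈ St s, h (z + 1) = h z) (hs : 0 < s) {B : ℝ} (hB : ∀ z ∈ St s, ‖h z‖ ≤ B) {g : ℝ} (hg : 0 < g)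
    (n : ℕ) {z : ℂ} (hz : z ∈ St (s - g / 2)) :
    ‖h z - PlC n h z‖ ≤ 2 / (π * g) * Real.exp (-(π * g * n)) * B := by
  have hB0 : 0 ≤ B := (norm_nonneg _).trans (hB 0 (by simpa [St] using hs))
  have hpi := Real.pi_pos
  set f : ℤ → ℂ := fun l => fcC h l * Complex.exp (2 * π * Complex.I * l * z) with hf
  have hsum : HasSum f (h z) := c3_hasSum hd hp hs hB (c3_St_mono (by linarith) hz)
  have hlim := c3_tendsto_Icc hsum
  set r : ℝ := Real.exp (-(π * g)) with hr
  have hr0 : 0 < r := Real.exp_pos _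
  have hr1 : r < 1 := Real.exp_lt_one_iff.2 (by have := mul_pos hpi hg; linarith)
  have hzi : |z.im| < s - g / 2 := hz
  have hfl : ∀ l : ℤ, ‖f l‖ ≤ B * Real.exp (-(π * g * |(l : ℝ)|)) := by
    intro l
    simp only [hf]
    rw [norm_mul]
    have h1 := c3_fc_le hd hp hs hB l
    have h2 : ‖Complex.exp (2 * π * Complex.I * l * z)‖ ≤ Real.exp (2 * π * (s - g / 2) * |(l : ℝ)|) := by
      rw [Complex.norm_exp]
      refine Real.exp_le_exp.2 ?_
      have : (2 * π * Complex.I * l * z).re = 2 * π * -(l * z.im) := by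
        simp [Complex.mul_re, Complex.mul_im]
        ring
      rw [this]
      have h3 : -(l * z.im : ℝ) ≤ (s - g / 2) * |(l : ℝ)| := by
        calc -((l : ℝ) * z.im) ≤ |(l : ℝ) * z.im| := neg_le_abs _
          _ = |z.im| * |(l : ℝ)| := by rw [abs_mul, mul_comm]
          _ ≤ (s - g / 2) * |(l : ℝ)| := mul_le_mul_of_nonneg_right hzi.le (abs_nonneg _)
      rw [mul_assoc (2 * π)]
      exact mul_le_mul_of_nonneg_left h3 (by positivity)
    calc ‖fcC h l‖ * ‖Complex.exp (2 * π * Complex.I * l * z)‖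
        ≤ (B * Real.exp (-(2 * π * s * |(l : ℝ)|))) * Real.exp (2 * π * (s - g / 2) * |(l : ℝ)|) :=
          mul_le_mul h1 h2 (norm_nonneg _) (by positivity)
      _ = B * Real.exp (-(π * g * |(l : ℝ)|)) := by
          rw [mul_assoc, ← Real.exp_add]
          ring_nf
  have hstep : ∀ m : ℕ, dist (∑ l ∈ Finset.Icc (-(m : ℤ)) (m : ℤ), f l)
      (∑ l ∈ Finset.Icc (-((m + 1 : ℕ) : ℤ)) ((m + 1 : ℕ) : ℤ), f l) ≤ (2 * B * r) * r ^ m := by
    intro m
    rw [c3_Icc_succ, dist_eq_norm]
    have e1 : (∑ l ∈ Finset.Icc (-(m : ℤ)) (m : ℤ), f l) -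
        (∑ l ∈ Finset.Icc (-(m : ℤ)) (m : ℤ), f l + (f ((m : ℤ) + 1) + f (-((m : ℤ) + 1)))) =
        -(f ((m : ℤ) + 1) + f (-((m : ℤ) + 1))) := by ring
    rw [e1, norm_neg]
    have hrm : r ^ (m + 1) = Real.exp (-(π * g * ((m : ℝ) + 1))) := by
      rw [hr, ← Real.exp_nat_mul]
      push_cast
      ring_nf
    have h1 := hfl ((m : ℤ) + 1)
    have h2 := hfl (-((m : ℤ) + 1))
    have hm : (0 : ℝ) ≤ (m : ℝ) + 1 := by positivity
    push_cast at h1 h2
    rw [abs_neg] at h2
    rw [abs_of_nonneg hm, ← hrm] at h1 h2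
    calc ‖f ((m : ℤ) + 1) + f (-((m : ℤ) + 1))‖ ≤ ‖f ((m : ℤ) + 1)‖ + ‖f (-((m : ℤ) + 1))‖ := norm_add_le _ _
      _ ≤ B * r ^ (m + 1) + B * r ^ (m + 1) := add_le_add h1 h2
      _ = (2 * B * r) * r ^ m := by ring
  have hd := dist_le_of_le_geometric_of_tendsto r (2 * B * r) hr1 hstep hlim n
  rw [dist_comm, dist_eq_norm] at hd
  have hP : PlC n h z = ∑ l ∈ Finset.Icc (-(n : ℤ)) (n : ℤ), f l := rfl
  rw [hP]
  refine hd.trans ?_
  have h1r : 0 < 1 - r := by linarith
  have hrn : r ^ n = Real.exp (-(π * g * n)) := by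
    rw [hr, ← Real.exp_nat_mul]
    ring_nf
  rw [← hrn]
  have key : r / (1 - r) ≤ 1 / (π * g) := by
    have hpg : 0 < π * g := mul_pos hpi hg
    rw [div_le_div_iff₀ h1r hpg]
    have h3 : 1 + π * g ≤ Real.exp (π * g) := by
      have := Real.add_one_le_exp (π * g)
      linarith
    have h4 : r * Real.exp (π * g) = 1 := by
      rw [hr, ← Real.exp_add]
      simp
    nlinarith [mul_le_mul_of_nonneg_left h3 hr0.le]
  calc 2 * B * r * r ^ n / (1 - r) = (2 * B * r ^ n) * (r / (1 - r)) := by ring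
    _ ≤ (2 * B * r ^ n) * (1 / (π * g)) := mul_le_mul_of_nonneg_left key (by positivity)
    _ = 2 / (π * g) * r ^ n * B := by ring

end

end Pool.Agent.Helper67.DO
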